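import Pool.Agent.Helper89G.LB

/-!
# Large gaps next to the zeros in a Bohr set, in short intervals (under RH)

Assume the Riemann hypothesis. There is `θ < 1`, and for every `v > 0` there is `ε > 0`, such that
for all rationally independent `α₁, …, α_k` and every open subset `U` of the torus of measure at
least `v`, every interval `[T, T + H]` with `T` large (in terms of `α`, `U`) and `T ^ θ ≤ H ≤ T / 2`
contains at least `ε H log T` ordinates `γ_n` with `α γ_n mod 1 ∈ U` and `δ_n > 3.57`.

Method: the localised second moment `∫ w |E|²` and the mean value `∫ w |E|² Z` of the theorem without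
`U` (`LG.LOCAL` of the starting files) are evaluated with an additional factor `e^{iνt}`, `ν ≠ 0`
fixed (`Helper89G.TMEAN`); the off-diagonal terms are controlled by a gap principle for reduced
fractions near `e^{-ν}` whose numerators have few and large prime factors (`Helper89G.Fam.total`).
-/

open Filter Topology Complex MeasureTheory

namespace Pool.Agent.Results.MP_21f43f_nt.LargeGapsBohrSets

/-- multiplicity of `s` as a zero of the Riemann zeta function (order of vanishing at `s`) -/
noncomputable def zmult (s : ℂ) : ℕ := analyticOrderNatAt riemannZeta s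

/-- the number of nontrivial zeros of `ζ` with ordinate in `(0, t]`, with multiplicity -/
noncomputable def NZ (t : ℝ) : ℕ :=
  ∑ᶠ s ∈ {s : ℂ | riemannZeta s = 0 ∧ 0 < s.re ∧ s.re < 1 ∧ 0 < s.im ∧ s.im ≤ t}, zmult s

/-- for `n ≥ 1`: the `n`-th positive ordinate `γ n` of a nontrivial zero of `ζ`, the ordinates being
listed in nondecreasing order and repeated according to multiplicity -/
noncomputable def γ (n : ℕ) : ℝ := sInf {t : ℝ | n ≤ NZ t}

/-- the normalised gaps `δ_n = (γ_{n+1} log γ_{n+1} - γ_n log γ_n) / 2π` -/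
noncomputable def δ (n : ℕ) : ℝ :=
  (γ (n + 1) * Real.log (γ (n + 1)) - γ n * Real.log (γ n)) / (2 * Real.pi)

/-- the point `α t mod 1` of the torus `(ℝ/ℤ)^k` -/
def pt {k : ℕ} (α : Fin k → ℝ) (t : ℝ) : UnitAddTorus (Fin k) :=
  fun j => ((α j * t : ℝ) : UnitAddCircle)

/-- the normalised Haar measure of the torus -/
noncomputable def haar (k : ℕ) : Measure (UnitAddTorus (Fin k)) :=
  Measure.pi fun _ => AddCircle.haarAddCircle

/-- On the Riemann hypothesis: there is `θ < 1` and for every `v > 0` there is `ε > 0` such that, for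
rationally independent reals `α₁, …, α_k` and every open subset `U` of the torus `(ℝ/ℤ)^k` of measure
at least `v`, for all large `T` and all `H` with `T ^ θ ≤ H ≤ T / 2` there are at least `ε H log T`
indices `n` with `T ≤ γ_n ≤ T + H`, `α γ_n mod 1 ∈ U` and `δ_n > 3.57`. -/
theorem result (RH : RiemannHypothesis) :
    ∃ θ : ℝ, θ < 1 ∧ ∀ v : ℝ, 0 < v → ∃ ε : ℝ, 0 < ε ∧ ∀ (k : ℕ) (α : Fin k → ℝ),
    (∀ n : Fin k → ℤ, ∑ j, (n j : ℝ) * α j = 0 → n = 0) →
    ∀ U : Set (UnitAddTorus (Fin k)), IsOpen U → v ≤ (haar k U).toReal →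
      ∃ T₀ : ℝ, ∀ T : ℝ, T₀ ≤ T → ∀ H : ℝ, T ^ θ ≤ H → H ≤ T / 2 →
        ε * (H * Real.log T) ≤ ({n : ℕ | 1 ≤ n ∧ T ≤ γ n ∧ γ n ≤ T + H ∧ pt α (γ n) ∈ U ∧
          357 / 100 < δ n}.ncard : ℝ) := by
  have hRHs : SP.RHs := by
    intro s h1 h2 h0
    apply RH s h0
    · rintro ⟨k, hk⟩
      have := congrArg Complex.re hk
      simp at this
      have hk0 : (0 : ℝ) ≤ k := Nat.cast_nonneg k
      linarith
    · intro h; rw [h] at h2; simp at h2
  exact Helper89G.large_bohr hRHs

end Pool.Agent.Results.MP_21f43f_nt.LargeGapsBohrSets
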