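import Pool.Agent.Helper65.LR.Lin

/-!
# No asymptotic linear relation between consecutive normalised gaps

Assume the Riemann hypothesis; `δ_n` are the normalised gaps of the problem. For every `k` there is
`c > 0` such that for all large `N`, for ALL real unit vectors `(a_0, …, a_k)` and all real `b`, at
least `c N` of the `n ≤ N` satisfy `|a_0 δ_n + ⋯ + a_k δ_{n+k} - b| ≥ c`. So no limit law of
`(δ_n, …, δ_{n+k})` is carried by a hyperplane.

The proof: by a relation in the limit the number of zeros in windows of `a` mean spacings would have a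
variance bounded in `a`, but it is unbounded by the pair correlation sums with kernels supported in
`[-1/2,1/2]`. The algebraic part and the averaging arguments (`Pool/Agent/Y743/LR`) are starting
files; the law of large numbers, the unbounded variance and the assembly are new.
-/

set_option autoImplicit false

namespace Pool.Agent.Results.MP_21f43f_nt.NoLinearRelation

open Filter

/-- the multiplicity of a zero -/
noncomputable def zmult (s : ℂ) : ℕ := analyticOrderNatAt riemannZeta s

/-- the number of nontrivial zeros with ordinate in `(0,t]`, with multiplicity -/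
noncomputable def NZ (t : ℝ) : ℕ :=
  ∑ᶠ s ∈ {s : ℂ | riemannZeta s = 0 ∧ 0 < s.re ∧ s.re < 1 ∧ 0 < s.im ∧ s.im ≤ t}, zmult s

/-- the `n`-th ordinate `γ_n` (`n ≥ 1`), with multiplicity -/
noncomputable def ord (n : ℕ) : ℝ := sInf {t : ℝ | n ≤ NZ t}

/-- the normalised gap `δ_n = (γ_{n+1} log γ_{n+1} - γ_n log γ_n) / 2π` -/
noncomputable def gap (n : ℕ) : ℝ :=
  (ord (n + 1) * Real.log (ord (n + 1)) - ord n * Real.log (ord n)) / (2 * Real.pi)

/-- the number of `n`, `1 ≤ n ≤ N`, with the property `P` -/
noncomputable def number (N : ℕ) (P : ℕ → Prop) : ℕ := {n : ℕ | 1 ≤ n ∧ n ≤ N ∧ P n}.ncard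

lemma number_eq (N : ℕ) (P : ℕ → Prop) [DecidablePred P] :
    number N P = ((Finset.Icc 1 N).filter P).card := by
  unfold number
  rw [← Set.ncard_coe_finset]
  congr 1
  ext n
  simp only [Set.mem_ofPred_eq, Finset.coe_filter, Finset.mem_Icc]
  tauto

/-- Under the Riemann hypothesis the normalised gaps of the zeta zeros satisfy no asymptotic affine
linear relation, uniformly over the unit vectors of coefficients. -/
theorem result (hRH : RiemannHypothesis) :
    ∀ k : ℕ, ∃ c : ℝ, 0 < c ∧ ∀ᶠ N : ℕ in atTop, ∀ (a : Fin (k + 1) → ℝ) (b : ℝ),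
      ∑ j, a j ^ 2 = 1 →
        c * N ≤ (number N fun n => c ≤ |(∑ j : Fin (k + 1), a j * gap (n + j)) - b| : ℝ) := by
  classical
  intro k
  obtain ⟨c, hc, h⟩ := Pool.Agent.Helper65.LR.no_linear hRH k
  refine ⟨c, hc, h.mono fun N hN a b hab => ?_⟩
  rw [number_eq]
  refine (hN a b hab).trans (le_of_eq ?_)
  congr 3

end Pool.Agent.Results.MP_21f43f_nt.NoLinearRelation
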