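import Pool.Agent.Helper65.NR.Main

/-!
# The zeros of the zeta function are number rigid on the scale of their mean spacing

Assume the Riemann hypothesis. Fix `a > 0` and `ε > 0`. There are ONE compactly supported continuous
`g : ℝ → [0,1]`, equal to `1` on `[-a,a]`, and ONE number `m`, with the following property for almost
all heights `t ∈ [T,2T]`, for almost all zeros `t = γ_n`, and in almost all intervals
`[b,b+H] ⊆ [T,3T]` with `T^θ ≤ H ≤ T/8`: for every set `W ⊆ [-a,a]` the number of zeros at the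
normalised distances `(γ-t) log T / 2π ∈ W` is EXACTLY the nearest integer to `m` minus the sum of
`g((γ-t) log T / 2π)` over the zeros outside of `W`. For `t = γ_n` and `W = (0,s]` this says that
the position of the remaining zeros decides whether `δ_n > s`.

The proof only uses the pair correlation sums with kernels `r̂` supported in `[-1/R,1/R]`, and
averages of Fejér kernels over dyadic scales, whose energy `∫ |α| r̂(α)²` tends to `0`.
-/

set_option autoImplicit false

namespace Pool.Agent.Results.MP_21f43f_nt.NumberRigidity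

open MeasureTheory Set Filter Topology

/-- the nontrivial zeros of zeta -/
def zeros : Set ℂ := {s : ℂ | riemannZeta s = 0 ∧ 0 < s.re ∧ s.re < 1}

/-- the multiplicity of a zero -/
noncomputable def zmult (s : ℂ) : ℕ := analyticOrderNatAt riemannZeta s

/-- the position of the zero `s` seen from the height `t`, in units of the mean spacing at `T` -/
noncomputable def pos (T t : ℝ) (s : ℂ) : ℝ := (s.im - t) * Real.log T / (2 * Real.pi)

/-- the number of zeros (with multiplicity) with position in `W` -/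
noncomputable def count (T t : ℝ) (W : Set ℝ) : ℕ :=
  ∑ᶠ s ∈ {s : ℂ | s ∈ zeros ∧ pos T t s ∈ W}, zmult s

/-- the sum of `g(position)` over the zeros (with multiplicity) with position in `W` -/
noncomputable def stat (g : ℝ → ℝ) (T t : ℝ) (W : Set ℝ) : ℝ :=
  ∑ᶠ s ∈ {s : ℂ | s ∈ zeros ∧ pos T t s ∈ W}, (zmult s : ℝ) * g (pos T t s)

/-- Rigidity at the height `t`: the sum of `g` over all zeros is `m` up to `ε`; in every
`W ⊆ [-a,a]` the number of zeros is read off from the zeros outside of `W`; and for `0 ≤ s ≤ a`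
there is no zero at a normalised distance in `(0,s]` above `t` if and only if the number that is
read off from the zeros outside of this interval is `0`. -/
def Rigid (g : ℝ → ℝ) (m a ε T t : ℝ) : Prop :=
  |stat g T t univ - m| ≤ ε ∧
    (∀ W : Set ℝ, W ⊆ Icc (-a) a → (count T t W : ℤ) = round (m - stat g T t Wᶜ)) ∧
    (∀ s : ℝ, 0 ≤ s → s ≤ a →
      ((∀ z ∈ zeros, ¬ (t < z.im ∧ z.im ≤ t + 2 * Real.pi * s / Real.log T)) ↔
        round (m - stat g T t (Ioc 0 s)ᶜ) = 0))

/-- the number of zeros (with multiplicity) with ordinate in `(A,B]` that are not rigid -/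
noncomputable def bads (g : ℝ → ℝ) (m a ε T A B : ℝ) : ℕ :=
  ∑ᶠ s ∈ {s : ℂ | s ∈ zeros ∧ (A < s.im ∧ s.im ≤ B) ∧ ¬ Rigid g m a ε T s.im}, zmult s

/-- In `[b,b+H]` all heights are rigid up to a set of measure `ε H`, and all zeros up to
`ε H log T` of them. -/
def BlockRigid (g : ℝ → ℝ) (m a ε T b H : ℝ) : Prop :=
  volume {t : ℝ | t ∈ Icc b (b + H) ∧ ¬ Rigid g m a ε T t} ≤ ENNReal.ofReal (ε * H) ∧
    (bads g m a ε T b (b + H) : ℝ) ≤ ε * (H * Real.log T)

/-- Under the Riemann hypothesis the zeros are number rigid: on `[T,2T]`, and on `[b,b+H]` for all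
`b ∈ [T,2T]` outside of a set of measure `T^(1-δ)`, whenever `T^θ ≤ H ≤ T/8`. -/
theorem result (hRH : RiemannHypothesis) (a ε : ℝ) (ha : 0 < a) (hε : 0 < ε) :
    ∃ (g : ℝ → ℝ) (m : ℝ), Continuous g ∧ HasCompactSupport g ∧ (∀ x, 0 ≤ g x ∧ g x ≤ 1) ∧
      (∀ x, |x| ≤ a → g x = 1) ∧
      (∀ᶠ T : ℝ in atTop, BlockRigid g m a ε T T T) ∧
      (∀ θ : ℝ, 0 < θ → θ < 1 → ∃ δ : ℝ, 0 < δ ∧ ∀ᶠ T : ℝ in atTop, ∀ H : ℝ,
        T ^ θ ≤ H → H ≤ T / 8 →
        volume {b : ℝ | b ∈ Icc T (2 * T) ∧ ¬ BlockRigid g m a ε T b H} ≤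
          ENNReal.ofReal (T ^ (1 - δ))) :=
  Pool.Agent.Helper65.NR.number_rigidity hRH a ε ha hε

end Pool.Agent.Results.MP_21f43f_nt.NumberRigidity
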