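import Pool.Agent.Helper89G.SG9

/-!
# Small gaps next to the zeros in a Bohr set, in short intervals (under RH)

Assume the Riemann hypothesis and let `β > 1/2`. There is `θ < 1`, and for every `v > 0` there is
`ε > 0`, such that for all rationally independent `α₁, …, α_k` and every open subset `U` of the torus
of measure at least `v`, every interval `[T, T + H]` with `T` large (in terms of `α`, `U`) and
`T ^ θ ≤ H ≤ T / 2` contains at least `ε H log T` ordinates `γ_n` with `α γ_n mod 1 ∈ U` and
`δ_n < β`.

Method: in the proof of the theorem without `U` (`SP.local_many` of the starting files) the mean value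
of `|D|² f`, `D` the detector and `f = Λ(s - ih)/Λ(s + ih)`, is evaluated with an additional factor
`e^{iνt}`, `ν ≠ 0` fixed (`Helper89G.teval`). Only pairs of integers `(k, j)` with `j / k` near `e^ν`
contribute. If `k` does not divide `j` then `k / (k, j)` is large, as `k` has only large prime factors,
and a gap principle for reduced fractions applies (`Helper89G.nonexc`); the pairs `(k, m k)`, which
occur for `ν = log m`, carry the factor `f_m = O(1/log T)` of the Dirichlet series of `f`.
-/

open Filter Topology Complex MeasureTheory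

namespace Pool.Agent.Results.MP_21f43f_nt.SmallGapsHalfBohrSets

/-- multiplicity of `s` as a zero of the Riemann zeta function (order of vanishing at `s`) -/
noncomputable def zmult (s : ℂ) : ℕ := analyticOrderNatAt riemannZeta s

/-- the number of nontrivial zeros of `ζ` with ordinate in `(0, t]`, with multiplicity -/
noncomputable def NZ (t : ℝ) : ℕ :=
  ∑ᶠ s ∈ {s : ℂ | riemannZeta s = 0 ∧ 0 < s.re ∧ s.re < 1 ∧ 0 < s.im ∧ s.im ≤ t}, zmult s

/-- for `n ≥ 1`: the `n`-th positive ordinate `γ n` of a nontrivial zero of `ζ`, the ordinates being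
listed in nondecreasing order and repeated according to multiplicity -/
noncomputable def γ (n : ℕ) : ℝ := sInf {t : ℝ | n ≤ NZ t}

/-- the normalised gaps `δ_n = (γ_{n+1} log γ_{n+1} - γ_n log γ_n) / 2π` -/
noncomputable def δ (n : ℕ) : ℝ :=
  (γ (n + 1) * Real.log (γ (n + 1)) - γ n * Real.log (γ n)) / (2 * Real.pi)

/-- the point `α t mod 1` of the torus `(ℝ/ℤ)^k` -/
def pt {k : ℕ} (α : Fin k → ℝ) (t : ℝ) : UnitAddTorus (Fin k) :=
  fun j => ((α j * t : ℝ) : UnitAddCircle)

/-- the normalised Haar measure of the torus -/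
noncomputable def haar (k : ℕ) : Measure (UnitAddTorus (Fin k)) :=
  Measure.pi fun _ => AddCircle.haarAddCircle

/-- On the Riemann hypothesis: let `β > 1/2`. There is `θ < 1` and for every `v > 0` there is `ε > 0`
such that, for rationally independent reals `α₁, …, α_k` and every open subset `U` of the torus
`(ℝ/ℤ)^k` of measure at least `v`, for all large `T` and all `H` with `T ^ θ ≤ H ≤ T / 2` there are at
least `ε H log T` indices `n` with `T ≤ γ_n ≤ T + H`, `α γ_n mod 1 ∈ U` and `δ_n < β`. -/
theorem result (RH : RiemannHypothesis) (β : ℝ) (hβ : 1 / 2 < β) :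
    ∃ θ : ℝ, θ < 1 ∧ ∀ v : ℝ, 0 < v → ∃ ε : ℝ, 0 < ε ∧ ∀ (k : ℕ) (α : Fin k → ℝ),
    (∀ n : Fin k → ℤ, ∑ j, (n j : ℝ) * α j = 0 → n = 0) →
    ∀ U : Set (UnitAddTorus (Fin k)), IsOpen U → v ≤ (haar k U).toReal →
      ∃ T₀ : ℝ, ∀ T : ℝ, T₀ ≤ T → ∀ H : ℝ, T ^ θ ≤ H → H ≤ T / 2 →
        ε * (H * Real.log T) ≤ ({n : ℕ | 1 ≤ n ∧ T ≤ γ n ∧ γ n ≤ T + H ∧ pt α (γ n) ∈ U ∧
          δ n < β}.ncard : ℝ) := by
  have hRHs : SP.RHs := by
    intro s h1 h2 h0
    apply RH s h0
    · rintro ⟨k, hk⟩
      have := congrArg Complex.re hk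
      simp at this
      have hk0 : (0 : ℝ) ≤ k := Nat.cast_nonneg k
      linarith
    · intro h; rw [h] at h2; simp at h2
  exact Helper89G.small_bohr hRHs β hβ

end Pool.Agent.Results.MP_21f43f_nt.SmallGapsHalfBohrSets
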